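import Mathlib

namespace Pool.Agent.Results.MP_81b71e_al.DistributivePairs

universe u

/-! ### Algebras, compatible quasiorders, realisable pairs -/

section Defs

variable {A : Type u} {ι : Type u} {ar : ι → ℕ} (op : ∀ i, (Fin (ar i) → A) → A)

/-- A quasiorder: a reflexive and transitive relation. -/
def IsQuasiorder (r : A → A → Prop) : Prop :=
  (∀ x, r x x) ∧ ∀ x y z, r x y → r y z → r x z

/-- The relation `r` is preserved by all the fundamental operations `op i` (of arity `ar i`). -/
def Preserved (r : A → A → Prop) : Prop :=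
  ∀ (i : ι) (a b : Fin (ar i) → A), (∀ k, r (a k) (b k)) → r (op i a) (op i b)

/-- `Qord` of the algebra `(A; op)`: the preserved quasiorders, ordered by inclusion. -/
def Qord : Type u := {r : A → A → Prop // IsQuasiorder r ∧ Preserved op r}

instance : PartialOrder (Qord op) :=
  inferInstanceAs (PartialOrder {r : A → A → Prop // IsQuasiorder r ∧ Preserved op r})

end Defs

/-- The pair `(L₁, L₂)` is realised: there are an algebra `(A; op)` (`A` nonempty, arbitrary set of
finitary operations) and an order isomorphism `φ` of `L₁` onto `Qord` of the algebra which maps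
`L₂` onto the set of symmetric members of `Qord`, that is, onto `Con`. -/
def Realised (L₁ : Type u) [PartialOrder L₁] (L₂ : Set L₁) : Prop :=
  ∃ (A : Type u) (_ : Nonempty A) (ι : Type u) (ar : ι → ℕ) (op : ∀ i, (Fin (ar i) → A) → A)
    (φ : L₁ ≃o Qord op), ∀ x : L₁, x ∈ L₂ ↔ ∀ a b : A, (φ x).1 a b → (φ x).1 b a

/-! ### The necessary conditions -/

section Necessary

variable {A : Type u} {ι : Type u} {ar : ι → ℕ} {op : ∀ i, (Fin (ar i) → A) → A}

theorem le_iff {r s : Qord op} : r ≤ s ↔ ∀ a b, r.1 a b → s.1 a b := Iff.rfl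

/-- The inverse of a member of `Qord`. -/
def inv (r : Qord op) : Qord op :=
  ⟨fun x y => r.1 y x, ⟨fun x => r.2.1.1 x, fun x y z h1 h2 => r.2.1.2 z y x h2 h1⟩,
    fun i a b h => r.2.2 i b a h⟩

theorem inv_inv (r : Qord op) : inv (inv r) = r := rfl

theorem inv_mono {r s : Qord op} (h : r ≤ s) : inv r ≤ inv s := fun a b hab => h b a hab

theorem inv_le_inv {r s : Qord op} : inv r ≤ inv s ↔ r ≤ s :=
  ⟨fun h => inv_mono h, inv_mono⟩

/-- Inversion as an order isomorphism. -/
def invIso : Qord op ≃o Qord op where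
  toFun := inv
  invFun := inv
  left_inv := inv_inv
  right_inv := inv_inv
  map_rel_iff' := inv_le_inv

/-- The intersection. -/
def inter (r s : Qord op) : Qord op :=
  ⟨fun x y => r.1 x y ∧ s.1 x y,
    ⟨fun x => ⟨r.2.1.1 x, s.2.1.1 x⟩,
      fun x y z h1 h2 => ⟨r.2.1.2 x y z h1.1 h2.1, s.2.1.2 x y z h1.2 h2.2⟩⟩,
    fun i a b h => ⟨r.2.2 i a b fun k => (h k).1, s.2.2 i a b fun k => (h k).2⟩⟩

/-- One step of the join. -/
def Step (r s : Qord op) (x y : A) : Prop := r.1 x y ∨ s.1 x y

theorem preserved_trans (r s : Qord op) :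
    Preserved op (Relation.ReflTransGen (Step r s)) := by
  intro i a b h
  -- change one coordinate at a time
  have one : ∀ (k : Fin (ar i)) (c : Fin (ar i) → A) (x y : A),
      Relation.ReflTransGen (Step r s) x y →
      Relation.ReflTransGen (Step r s) (op i (Function.update c k x))
        (op i (Function.update c k y)) := by
    intro k c x y hxy
    induction hxy with
    | refl => exact Relation.ReflTransGen.refl
    | tail _ hyz ih =>
      refine ih.tail ?_
      rcases hyz with hyz | hyz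
      · left
        refine r.2.2 i _ _ fun j => ?_
        by_cases hj : j = k
        · subst hj; simpa using hyz
        · simp only [Function.update_of_ne hj]
          exact r.2.1.1 _
      · right
        refine s.2.2 i _ _ fun j => ?_
        by_cases hj : j = k
        · subst hj; simpa using hyz
        · simp only [Function.update_of_ne hj]
          exact s.2.1.1 _
  have main : ∀ S : Finset (Fin (ar i)),
      Relation.ReflTransGen (Step r s) (op i a) (op i (fun j => if j ∈ S then b j else a j)) := by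
    intro S
    induction S using Finset.induction_on with
    | empty => simpa using Relation.ReflTransGen.refl
    | insert k S hk ih =>
      refine ih.trans ?_
      have h1 := one k (fun j => if j ∈ S then b j else a j) (a k) (b k) (h k)
      have e1 : Function.update (fun j => if j ∈ S then b j else a j) k (a k) =
          fun j => if j ∈ S then b j else a j := by
        funext j
        by_cases hj : j = k
        · subst hj; simp [hk]
        · simp [Function.update_of_ne hj]
      have e2 : Function.update (fun j => if j ∈ S then b j else a j) k (b k) =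
          fun j => if j ∈ insert k S then b j else a j := by
        funext j
        by_cases hj : j = k
        · subst hj; simp
        · simp [Finset.mem_insert, hj]
      rw [e1, e2] at h1
      exact h1
  have h2 := main Finset.univ
  simpa using h2

/-- The join. -/
def join (r s : Qord op) : Qord op :=
  ⟨Relation.ReflTransGen (Step r s),
    ⟨fun _ => Relation.ReflTransGen.refl, fun _ _ _ h1 h2 => h1.trans h2⟩, preserved_trans r s⟩

theorem path_of_sup {L : Type u} [Lattice L] (φ : L ≃o Qord op) (b c : L) {x y : A}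
    (h : (φ (b ⊔ c)).1 x y) : Relation.ReflTransGen (Step (φ b) (φ c)) x y := by
  have h1 : φ b ≤ join (φ b) (φ c) := fun x y hxy => Relation.ReflTransGen.single (Or.inl hxy)
  have h2 : φ c ≤ join (φ b) (φ c) := fun x y hxy => Relation.ReflTransGen.single (Or.inr hxy)
  have h3 : b ⊔ c ≤ φ.symm (join (φ b) (φ c)) :=
    sup_le ((φ.le_symm_apply).2 h1) ((φ.le_symm_apply).2 h2)
  exact (φ.le_symm_apply.1 h3) x y h

theorem inf_mem {L : Type u} [Lattice L] (φ : L ≃o Qord op) (b c : L) {x y : A}
    (h1 : (φ b).1 x y) (h2 : (φ c).1 x y) : (φ (b ⊓ c)).1 x y := by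
  have h3 : inter (φ b) (φ c) ≤ φ (b ⊓ c) := by
    have h4 : φ.symm (inter (φ b) (φ c)) ≤ b ⊓ c := by
      refine le_inf ?_ ?_
      · exact φ.symm_apply_le.2 fun x y hxy => hxy.1
      · exact φ.symm_apply_le.2 fun x y hxy => hxy.2
    exact φ.symm_apply_le.1 h4
  exact h3 x y ⟨h1, h2⟩

theorem necessary {L : Type u} [Lattice L] {L₂ : Set L} (h : Realised L L₂) :
    ∃ α : L ≃o L, (∀ x, α (α x) = x) ∧ (∀ x, x ∈ L₂ ↔ α x = x) ∧
      ∀ a b c : L, a ⊓ (b ⊔ c) ≤ (b ⊓ (a ⊔ α (b ⊔ c))) ⊔ (c ⊓ (a ⊔ α (b ⊔ c))) := by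
  obtain ⟨A, _, ι, ar, op, φ, hφ⟩ := h
  let α : L ≃o L := (φ.trans invIso).trans φ.symm
  have hα : ∀ x, φ (α x) = inv (φ x) := fun x => φ.apply_symm_apply _
  refine ⟨α, ?_, ?_, ?_⟩
  · intro x
    apply φ.injective
    rw [hα, hα, inv_inv]
  · intro x
    rw [hφ]
    constructor
    · intro hs
      apply φ.injective
      rw [hα]
      apply Subtype.ext
      funext a b
      exact propext ⟨fun hh => hs b a hh, fun hh => hs a b hh⟩
    · intro hx a b hab
      have h1 : φ x = inv (φ x) := by rw [← hα, hx]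
      rw [h1]
      exact hab
  · intro a b c
    set t := b ⊔ c with ht
    set m := a ⊔ α t with hm
    rw [← φ.le_iff_le]
    intro x y hxy
    have hax : (φ a).1 x y := (φ.monotone (inf_le_left : a ⊓ t ≤ a)) x y hxy
    have htx : (φ t).1 x y := (φ.monotone (inf_le_right : a ⊓ t ≤ t)) x y hxy
    have ham : φ a ≤ φ m := φ.monotone le_sup_left
    have htm : φ (α t) ≤ φ m := φ.monotone le_sup_right
    have hbt : φ b ≤ φ t := φ.monotone le_sup_left
    have hct : φ c ≤ φ t := φ.monotone le_sup_right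
    have step : ∀ z z' : A, (φ t).1 x z → (φ t).1 z' y → (φ m).1 z z' := by
      intro z z' h1 h2
      have h3 : (φ m).1 z x := htm z x (by rw [hα]; exact h1)
      have h4 : (φ m).1 y z' := htm y z' (by rw [hα]; exact h2)
      exact (φ m).2.1.2 _ _ _ h3 ((φ m).2.1.2 _ _ _ (ham x y hax) h4)
    have hpath := path_of_sup φ b c htx
    have main : ∀ z, Relation.ReflTransGen (Step (φ b) (φ c)) z y → (φ t).1 x z →
        (φ ((b ⊓ m) ⊔ (c ⊓ m))).1 z y := by
      intro z hz
      have toT : ∀ w, Relation.ReflTransGen (Step (φ b) (φ c)) w y → (φ t).1 w y := by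
        intro w hw
        induction hw using Relation.ReflTransGen.head_induction_on with
        | refl => exact (φ t).2.1.1 _
        | head h1 _ ih =>
          refine (φ t).2.1.2 _ _ _ ?_ ih
          rcases h1 with h1 | h1
          · exact hbt _ _ h1
          · exact hct _ _ h1
      induction hz using Relation.ReflTransGen.head_induction_on with
      | refl => intro _; exact (φ _).2.1.1 _
      | @head z z' h1 h2 ih =>
        intro hxz
        have hxz' : (φ t).1 x z' := by
          refine (φ t).2.1.2 _ _ _ hxz ?_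
          rcases h1 with h1 | h1
          · exact hbt _ _ h1
          · exact hct _ _ h1
        have hzm : (φ m).1 z z' := step z z' hxz (toT z' h2)
        refine (φ ((b ⊓ m) ⊔ (c ⊓ m))).2.1.2 _ _ _ ?_ (ih hxz')
        rcases h1 with h1 | h1
        · exact (φ.monotone (le_sup_left : b ⊓ m ≤ (b ⊓ m) ⊔ (c ⊓ m))) _ _ (inf_mem φ b m h1 hzm)
        · exact (φ.monotone (le_sup_right : c ⊓ m ≤ (b ⊓ m) ⊔ (c ⊓ m))) _ _ (inf_mem φ c m h1 hzm)
    exact main x hpath ((φ t).2.1.1 x)

end Necessary

/-! ### The construction for lattices of lower sets -/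

section Construction

variable {J : Type u} [PartialOrder J] (σ : J ≃o J)

open Classical in
/-- `Dir σ x y j`: the direction `j` occurs in the passage from the finite set `x` to the finite
set `y`. -/
def Dir (x y : Finset J) (j : J) : Prop := (j ∈ y ∧ j ∉ x) ∨ (∃ k, k ∈ x ∧ k ∉ y ∧ j = σ k)

/-- The relation attached to a lower set. -/
def rel (I : LowerSet J) (x y : Finset J) : Prop := ∀ j, Dir σ x y j → j ∈ I

theorem rel_quasiorder (I : LowerSet J) : IsQuasiorder (rel σ I) := by
  constructor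
  · rintro x j (⟨h1, h2⟩ | ⟨k, h1, h2, -⟩)
    · exact absurd h1 h2
    · exact absurd h1 h2
  · intro x y z hxy hyz j hj
    rcases hj with ⟨h1, h2⟩ | ⟨k, h1, h2, rfl⟩
    · by_cases hy : j ∈ y
      · exact hxy j (Or.inl ⟨hy, h2⟩)
      · exact hyz j (Or.inl ⟨h1, hy⟩)
    · by_cases hy : k ∈ y
      · exact hyz _ (Or.inr ⟨k, hy, h2, rfl⟩)
      · exact hxy _ (Or.inr ⟨k, h1, hy, rfl⟩)

/-- The operations: all self-maps preserving all the relations. -/
def Op (J : Type u) [PartialOrder J] (σ : J ≃o J) : Type u :=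
  {f : Finset J → Finset J // ∀ (I : LowerSet J) (x y), rel σ I x y → rel σ I (f x) (f y)}

/-- The fundamental operations, all of them unary. -/
def opn (i : Op J σ) (a : Fin 1 → Finset J) : Finset J := i.1 (a 0)

/-- `rel σ I` as a member of `Qord`. -/
def relQ (I : LowerSet J) : Qord (ar := fun _ : Op J σ => 1) (opn σ) :=
  ⟨rel σ I, rel_quasiorder σ I, fun i _ _ h => i.2 I _ _ (h 0)⟩

open Classical in
/-- The map with value `v` on sets containing `k` and value `u` on the other sets. -/
noncomputable def two (k : J) (u v : Finset J) (w : Finset J) : Finset J :=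
  if k ∈ w then v else u

variable (hσ : ∀ j, σ (σ j) = j)

include hσ in
theorem dir_symm {x y : Finset J} {j : J} (h : Dir σ y x j) : Dir σ x y (σ j) := by
  rcases h with ⟨h1, h2⟩ | ⟨k, h1, h2, rfl⟩
  · exact Or.inr ⟨j, h1, h2, rfl⟩
  · rw [hσ]
    exact Or.inl ⟨h1, h2⟩

include hσ in
theorem two_mem (k : J) (u v : Finset J) (h : ∀ j, Dir σ u v j → j ≤ k) :
    ∀ (I : LowerSet J) (x y), rel σ I x y → rel σ I (two k u v x) (two k u v y) := by
  intro I x y hxy
  unfold two
  by_cases hx : k ∈ x <;> by_cases hy : k ∈ y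
  · rw [if_pos hx, if_pos hy]; exact (rel_quasiorder σ I).1 v
  · rw [if_pos hx, if_neg hy]
    have hk : σ k ∈ I := hxy _ (Or.inr ⟨k, hx, hy, rfl⟩)
    intro j hj
    have h1 : σ j ≤ k := h _ (dir_symm σ hσ hj)
    have h2 : j ≤ σ k := by
      have := σ.monotone h1
      rwa [hσ] at this
    exact I.lower h2 hk
  · rw [if_neg hx, if_pos hy]
    have hk : k ∈ I := hxy _ (Or.inl ⟨hy, hx⟩)
    intro j hj
    exact I.lower (h j hj) hk
  · rw [if_neg hx, if_neg hy]; exact (rel_quasiorder σ I).1 u

include hσ in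
/-- Applying the map `two k u v` to a member of `Qord`. -/
theorem apply_two (r : Qord (ar := fun _ : Op J σ => 1) (opn σ)) (k : J) (u v : Finset J)
    (h : ∀ j, Dir σ u v j → j ≤ k) {x y : Finset J} (hxy : r.1 x y) :
    r.1 (two k u v x) (two k u v y) :=
  r.2.2 (⟨two k u v, two_mem σ hσ k u v h⟩ : Op J σ) (fun _ => x) (fun _ => y) (fun _ => hxy)

theorem dir_single {k j : J} (h : Dir σ ∅ {k} j) : j = k := by
  rcases h with ⟨h1, -⟩ | ⟨k', h1, -, -⟩
  · simpa using h1
  · simp at h1

include hσ in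
/-- The lower set attached to a member of `Qord`. -/
theorem lower_of (r : Qord (ar := fun _ : Op J σ => 1) (opn σ)) {j k : J} (hkj : k ≤ j)
    (h : r.1 ∅ {j}) : r.1 ∅ {k} := by
  have h1 := apply_two σ hσ r j ∅ {k} (fun i hi => by rw [dir_single σ hi]; exact hkj) h
  simpa [two] using h1

include hσ in
theorem single_of (r : Qord (ar := fun _ : Op J σ => 1) (opn σ)) {x y : Finset J} {j : J}
    (hxy : r.1 x y) (hj : Dir σ x y j) : r.1 ∅ {j} := by
  rcases hj with ⟨h1, h2⟩ | ⟨k, h1, h2, rfl⟩
  · have h3 := apply_two σ hσ r j ∅ {j} (fun i hi => by rw [dir_single σ hi]) hxy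
    simpa [two, h1, h2] using h3
  · have h3 := apply_two σ hσ r k {σ k} ∅ (fun i hi => by
      have h4 := dir_single σ (dir_symm σ hσ hi)
      have h5 := congrArg σ h4
      rw [hσ, hσ] at h5
      rw [h5]) hxy
    simpa [two, h1, h2] using h3

open Classical in
include hσ in
theorem insert_of (r : Qord (ar := fun _ : Op J σ => 1) (opn σ)) {j : J} (h : r.1 ∅ {j})
    (w : Finset J) : r.1 w (insert j w) := by
  have h1 := apply_two σ hσ r j w (insert j w) (fun i hi => by
    rcases hi with ⟨h1, h2⟩ | ⟨k, h1, h2, -⟩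
    · rcases Finset.mem_insert.1 h1 with h3 | h3
      · rw [h3]
      · exact absurd h3 h2
    · exact absurd (Finset.mem_insert_of_mem h1) h2) h
  simpa [two] using h1

open Classical in
include hσ in
theorem erase_of (r : Qord (ar := fun _ : Op J σ => 1) (opn σ)) {j : J} (h : r.1 ∅ {σ j})
    (w : Finset J) : r.1 (insert j w) w := by
  have h1 := apply_two σ hσ r (σ j) (insert j w) w (fun i hi => by
    rcases hi with ⟨h1, h2⟩ | ⟨k, h1, h2, h3⟩
    · exact absurd (Finset.mem_insert_of_mem h1) h2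
    · rcases Finset.mem_insert.1 h1 with h4 | h4
      · rw [h3, h4]
      · exact absurd h4 h2) h
  simpa [two] using h1

open Classical in
include hσ in
theorem grow (r : Qord (ar := fun _ : Op J σ => 1) (opn σ)) (w S : Finset J)
    (h : ∀ j ∈ S, r.1 ∅ {j}) : r.1 w (w ∪ S) := by
  induction S using Finset.induction_on with
  | empty => simpa using r.2.1.1 w
  | insert k S hk ih =>
    have h1 := ih fun j hj => h j (Finset.mem_insert_of_mem hj)
    have h2 := insert_of σ hσ r (h k (Finset.mem_insert_self k S)) (w ∪ S)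
    rw [Finset.union_insert]
    exact r.2.1.2 _ _ _ h1 h2

open Classical in
include hσ in
theorem shrink (r : Qord (ar := fun _ : Op J σ => 1) (opn σ)) (w S : Finset J)
    (h : ∀ j ∈ S, r.1 ∅ {σ j}) : r.1 (w ∪ S) w := by
  induction S using Finset.induction_on with
  | empty => simpa using r.2.1.1 w
  | insert k S hk ih =>
    have h1 := ih fun j hj => h j (Finset.mem_insert_of_mem hj)
    have h2 := erase_of σ hσ r (h k (Finset.mem_insert_self k S)) (w ∪ S)
    rw [Finset.union_insert]
    exact r.2.1.2 _ _ _ h2 h1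

/-- The lower set of a member of `Qord`. -/
def lowerOf (r : Qord (ar := fun _ : Op J σ => 1) (opn σ)) : LowerSet J where
  carrier := {j | r.1 ∅ {j}}
  lower' := fun _ _ hkj h => lower_of σ hσ r hkj h

open Classical in
theorem relQ_lowerOf (r : Qord (ar := fun _ : Op J σ => 1) (opn σ)) :
    relQ σ (lowerOf σ hσ r) = r := by
  apply Subtype.ext
  funext x y
  apply propext
  constructor
  · intro h
    have h1 : r.1 x (x ∪ (y \ x)) := grow σ hσ r x (y \ x) fun j hj => by
      rw [Finset.mem_sdiff] at hj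
      exact h j (Or.inl ⟨hj.1, hj.2⟩)
    have h2 : r.1 (y ∪ (x \ y)) y := shrink σ hσ r y (x \ y) fun j hj => by
      rw [Finset.mem_sdiff] at hj
      exact h (σ j) (Or.inr ⟨j, hj.1, hj.2, rfl⟩)
    have e : x ∪ (y \ x) = y ∪ (x \ y) := by
      rw [Finset.union_sdiff_self_eq_union, Finset.union_sdiff_self_eq_union, Finset.union_comm]
    rw [e] at h1
    exact r.2.1.2 _ _ _ h1 h2
  · intro h j hj
    exact single_of σ hσ r h hj

theorem lowerOf_relQ (I : LowerSet J) : lowerOf σ hσ (relQ σ I) = I := by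
  ext j
  constructor
  · intro h
    exact h j (Or.inl ⟨by simp, by simp⟩)
  · intro h i hi
    rw [dir_single σ hi]
    exact h

/-- The order isomorphism of the lattice of lower sets onto `Qord`. -/
def isoQ : LowerSet J ≃o Qord (ar := fun _ : Op J σ => 1) (opn σ) where
  toFun := relQ σ
  invFun := lowerOf σ hσ
  left_inv := lowerOf_relQ σ hσ
  right_inv := relQ_lowerOf σ hσ
  map_rel_iff' := by
    intro I I'
    constructor
    · intro h j hj
      have h1 : rel σ I ∅ {j} := fun i hi => by rw [dir_single σ hi]; exact hj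
      exact h _ _ h1 j (Or.inl ⟨by simp, by simp⟩)
    · intro h x y hxy j hj
      exact h (hxy j hj)

include hσ in
theorem symm_iff (I : LowerSet J) :
    (∀ x y, rel σ I x y → rel σ I y x) ↔ ∀ j, j ∈ I → σ j ∈ I := by
  constructor
  · intro h j hj
    have h1 : rel σ I ∅ {j} := fun i hi => by rw [dir_single σ hi]; exact hj
    exact h _ _ h1 _ (Or.inr ⟨j, by simp, by simp, rfl⟩)
  · intro h x y hxy j hj
    have h1 := h _ (hxy _ (dir_symm σ hσ hj))
    rwa [hσ] at h1

end Construction

/-- An involutive automorphism of the lattice of lower sets comes from the poset. -/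
theorem exists_sigma {J : Type u} [PartialOrder J] (α : LowerSet J ≃o LowerSet J)
    (hα : ∀ I, α (α I) = I) :
    ∃ σ : J ≃o J, (∀ j, σ (σ j) = j) ∧ ∀ (I : LowerSet J) (j : J), j ∈ α I ↔ σ j ∈ I := by
  have key : ∀ j : J, ∃ k : J, α (LowerSet.Iic j) = LowerSet.Iic k := by
    intro j
    have h1 : α (LowerSet.Iic j) = ⨆ k : {k // k ∈ α (LowerSet.Iic j)}, LowerSet.Iic k.1 := by
      apply le_antisymm
      · intro k hk
        rw [SetLike.mem_coe, LowerSet.mem_iSup_iff]
        exact ⟨⟨k, hk⟩, LowerSet.mem_Iic_iff.2 le_rfl⟩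
      · refine iSup_le fun k => ?_
        rw [LowerSet.Iic_le]
        exact k.2
    have h2 : LowerSet.Iic j = ⨆ k : {k // k ∈ α (LowerSet.Iic j)}, α (LowerSet.Iic k.1) := by
      rw [← OrderIso.map_iSup, ← h1, hα]
    have h3 : j ∈ ⨆ k : {k // k ∈ α (LowerSet.Iic j)}, α (LowerSet.Iic k.1) := by
      rw [← h2]
      exact LowerSet.mem_Iic_iff.2 le_rfl
    rw [LowerSet.mem_iSup_iff] at h3
    obtain ⟨k, hk⟩ := h3
    refine ⟨k.1, le_antisymm ?_ ?_⟩
    · have h4 : LowerSet.Iic j ≤ α (LowerSet.Iic k.1) := LowerSet.Iic_le.2 hk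
      have h5 := α.monotone h4
      rwa [hα] at h5
    · exact LowerSet.Iic_le.2 k.2
  choose s hs using key
  have iicinj : ∀ {j k : J}, LowerSet.Iic j ≤ LowerSet.Iic k ↔ j ≤ k := by
    intro j k
    rw [LowerSet.Iic_le, LowerSet.mem_Iic_iff]
  have hss : ∀ j, s (s j) = j := by
    intro j
    have h1 : LowerSet.Iic (s (s j)) = LowerSet.Iic j := by rw [← hs, ← hs, hα]
    exact le_antisymm (iicinj.1 h1.le) (iicinj.1 h1.ge)
  refine ⟨{ toFun := s, invFun := s, left_inv := hss, right_inv := hss, map_rel_iff' := ?_ },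
    hss, ?_⟩
  · intro j k
    change s j ≤ s k ↔ j ≤ k
    rw [← iicinj, ← hs, ← hs, α.le_iff_le, iicinj]
  · intro I j
    change j ∈ α I ↔ s j ∈ I
    rw [← LowerSet.Iic_le, ← LowerSet.Iic_le, ← hs, ← α.le_iff_le (x := α (LowerSet.Iic j)), hα]

theorem realised_lowerSet {J : Type u} [PartialOrder J] (L₂ : Set (LowerSet J))
    (α : LowerSet J ≃o LowerSet J) (hα : ∀ I, α (α I) = I) (hL : ∀ I, I ∈ L₂ ↔ α I = I) :
    Realised (LowerSet J) L₂ := by
  obtain ⟨σ, hσ, hσα⟩ := exists_sigma α hα
  refine ⟨Finset J, ⟨∅⟩, Op J σ, fun _ => 1, opn σ, isoQ σ hσ, fun I => ?_⟩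
  change I ∈ L₂ ↔ ∀ x y, rel σ I x y → rel σ I y x
  rw [symm_iff σ hσ, hL]
  constructor
  · intro h j hj
    rw [← hσα, h]
    exact hj
  · intro h
    ext j
    rw [SetLike.mem_coe, SetLike.mem_coe, hσα]
    constructor
    · intro hj
      have := h _ hj
      rwa [hσ] at this
    · exact h j

theorem Realised.of_iso {L M : Type u} [PartialOrder L] [PartialOrder M] (e : L ≃o M)
    {L₂ : Set L} (h : Realised M (e.symm ⁻¹' L₂)) : Realised L L₂ := by
  obtain ⟨A, hA, ι, ar, op, φ, hφ⟩ := h
  refine ⟨A, hA, ι, ar, op, e.trans φ, fun x => ?_⟩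
  have h1 := hφ (e x)
  rw [Set.mem_preimage, OrderIso.symm_apply_apply] at h1
  exact h1

theorem realised_finite_distrib {L : Type u} [DistribLattice L] [Finite L] [Nonempty L]
    (L₂ : Set L) (α : L ≃o L) (hα : ∀ x, α (α x) = x) (hL : ∀ x, x ∈ L₂ ↔ α x = x) :
    Realised L L₂ := by
  classical
  haveI := Fintype.ofFinite L
  letI : BoundedOrder L := Fintype.toBoundedOrder L
  let e : L ≃o LowerSet {a : L // SupIrred a} := OrderIso.lowerSetSupIrred
  refine Realised.of_iso e ?_
  refine realised_lowerSet _ ((e.symm.trans α).trans e) ?_ ?_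
  · intro I
    simp [hα]
  · intro I
    rw [Set.mem_preimage, hL]
    constructor
    · intro h
      change e (α (e.symm I)) = I
      rw [h, OrderIso.apply_symm_apply]
    · intro h
      have h' : e (α (e.symm I)) = I := h
      apply e.injective
      rw [h', OrderIso.apply_symm_apply]

/-- If `(L × L, diagonal)` is realised then `L` is distributive. -/
theorem distrib_of_diag {L : Type u} [Lattice L] [BoundedOrder L]
    (h : Realised (L × L) {p : L × L | p.1 = p.2}) (a b c : L) :
    a ⊓ (b ⊔ c) = (a ⊓ b) ⊔ (a ⊓ c) := by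
  obtain ⟨α, h2, hfix, hid⟩ := necessary h
  have fixed : ∀ p : L × L, p.1 = p.2 ↔ α p = p := hfix
  -- `α (⊤, ⊥) = (⊥, ⊤)`
  have hT : α (⊤, ⊥) = (⊥, ⊤) := by
    have h3 : α ((⊤, ⊥) ⊓ α (⊤, ⊥)) = (⊤, ⊥) ⊓ α (⊤, ⊥) := by
      rw [OrderIso.map_inf, h2, inf_comm]
    have h4 : α ((⊤, ⊥) ⊔ α (⊤, ⊥)) = (⊤, ⊥) ⊔ α (⊤, ⊥) := by
      rw [OrderIso.map_sup, h2, sup_comm]
    have h5 := (fixed _).2 h3
    have h6 := (fixed _).2 h4
    simp only [Prod.fst_inf, Prod.snd_inf, Prod.fst_sup, Prod.snd_sup, top_inf_eq, bot_inf_eq,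
      top_sup_eq, bot_sup_eq] at h5 h6
    exact Prod.ext h5 h6.symm
  have hB : α (⊥, ⊤) = (⊤, ⊥) := by rw [← hT, h2]
  have hright : ∀ x : L, α (x, ⊥) = (⊥, x) := by
    intro x
    have h3 : α (x, ⊥) ≤ (⊥, ⊤) := by
      rw [← hT]
      exact α.monotone ⟨le_top, le_rfl⟩
    have h4 : (α (x, ⊥)).1 = ⊥ := le_bot_iff.1 h3.1
    have h5 : α (⊥, x) ≤ (⊤, ⊥) := by
      rw [← hB]
      exact α.monotone ⟨le_rfl, le_top⟩
    have h6 : (α (⊥, x)).2 = ⊥ := le_bot_iff.1 h5.2
    have h7 : α (x, x) = (x, x) := (fixed (x, x)).1 rfl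
    have h8 : ((x, x) : L × L) = (x, ⊥) ⊔ (⊥, x) := by simp
    rw [h8, OrderIso.map_sup, ← h8] at h7
    have h9 : (α (x, ⊥)).2 = x := by
      have := congrArg Prod.snd h7
      simp only [Prod.snd_sup, h6, sup_bot_eq] at this
      exact this
    exact Prod.ext h4 h9
  apply le_antisymm
  · have h3 := hid (a, ⊥) (b, ⊥) (c, ⊥)
    have h4 : ((b, ⊥) : L × L) ⊔ (c, ⊥) = (b ⊔ c, ⊥) := by simp
    rw [h4, hright] at h3
    have h5 := h3.1
    simp only [Prod.fst_inf, Prod.fst_sup, sup_bot_eq] at h5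
    rw [inf_comm b a, inf_comm c a] at h5
    exact h5
  · exact sup_le (inf_le_inf le_rfl le_sup_left) (inf_le_inf le_rfl le_sup_right)

/-- The swap. -/
def swapIso (L : Type u) [Lattice L] : L × L ≃o L × L where
  toFun := Prod.swap
  invFun := Prod.swap
  left_inv := Prod.swap_swap
  right_inv := Prod.swap_swap
  map_rel_iff' := by
    intro a b
    exact ⟨fun h => ⟨h.2, h.1⟩, fun h => ⟨h.2, h.1⟩⟩

theorem diag_iff {L : Type u} [Lattice L] [Finite L] [Nonempty L] :
    Realised (L × L) {p : L × L | p.1 = p.2} ↔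
      ∀ a b c : L, a ⊓ (b ⊔ c) = (a ⊓ b) ⊔ (a ⊓ c) := by
  constructor
  · intro h
    haveI := Fintype.ofFinite L
    letI : BoundedOrder L := Fintype.toBoundedOrder L
    exact distrib_of_diag h
  · intro hd
    letI : DistribLattice L := DistribLattice.ofInfSupLe fun a b c => (hd a b c).le
    refine realised_finite_distrib (L := L × L) _ (swapIso L) (fun x => Prod.swap_swap x) ?_
    intro x
    constructor
    · intro h
      have h1 : x.1 = x.2 := h
      change Prod.swap x = x
      exact Prod.ext h1.symm h1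
    · intro h
      have h1 : Prod.swap x = x := h
      exact (congrArg Prod.snd h1 : x.1 = x.2)

theorem realised_of_lowerSet {J : Type u} [PartialOrder J] {L : Type u} [Lattice L]
    (e : L ≃o LowerSet J) (L₂ : Set L) (α : L ≃o L) (hα : ∀ x, α (α x) = x)
    (hL : ∀ x, x ∈ L₂ ↔ α x = x) : Realised L L₂ := by
  refine Realised.of_iso e ?_
  refine realised_lowerSet _ ((e.symm.trans α).trans e) ?_ ?_
  · intro I
    simp [hα]
  · intro I
    rw [Set.mem_preimage, hL]
    constructor
    · intro h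
      change e (α (e.symm I)) = I
      rw [h, OrderIso.apply_symm_apply]
    · intro h
      have h' : e (α (e.symm I)) = I := h
      apply e.injective
      rw [h', OrderIso.apply_symm_apply]

/-- **Main result.**
(1) Necessary conditions for an arbitrary realised pair: `L₂` is the set of fixed points of an
involutive automorphism `α` of `L₁`, and `α` satisfies an inclusion.
(2) Full answer when `L₁` is isomorphic to the lattice of all lower sets of a poset.
(3) Full answer when `L₁` is a finite distributive lattice.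
(4) For every bounded lattice `L`, if the pair `(L × L, diagonal)` is realised then `L` is
distributive; for finite `L` this is an equivalence. -/
theorem result :
    (∀ (L : Type u) [Lattice L] (L₂ : Set L), Realised L L₂ →
      ∃ α : L ≃o L, (∀ x, α (α x) = x) ∧ (∀ x, x ∈ L₂ ↔ α x = x) ∧
        ∀ a b c : L, a ⊓ (b ⊔ c) ≤ (b ⊓ (a ⊔ α (b ⊔ c))) ⊔ (c ⊓ (a ⊔ α (b ⊔ c)))) ∧
    (∀ (L : Type u) [Lattice L] (J : Type u) [PartialOrder J], Nonempty (L ≃o LowerSet J) →
      ∀ L₂ : Set L, Realised L L₂ ↔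
        ∃ α : L ≃o L, (∀ x, α (α x) = x) ∧ ∀ x, x ∈ L₂ ↔ α x = x) ∧
    (∀ (L : Type u) [DistribLattice L] [Finite L] [Nonempty L] (L₂ : Set L), Realised L L₂ ↔
        ∃ α : L ≃o L, (∀ x, α (α x) = x) ∧ ∀ x, x ∈ L₂ ↔ α x = x) ∧
    (∀ (L : Type u) [Lattice L] [BoundedOrder L], Realised (L × L) {p : L × L | p.1 = p.2} →
        ∀ a b c : L, a ⊓ (b ⊔ c) = (a ⊓ b) ⊔ (a ⊓ c)) ∧
    (∀ (L : Type u) [Lattice L] [Finite L] [Nonempty L],
      Realised (L × L) {p : L × L | p.1 = p.2} ↔
        ∀ a b c : L, a ⊓ (b ⊔ c) = (a ⊓ b) ⊔ (a ⊓ c)) := by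
  refine ⟨fun L _ L₂ h => necessary h, ?_, ?_, ?_, fun L _ _ _ => diag_iff⟩
  · rintro L _ J _ ⟨e⟩ L₂
    constructor
    · intro h
      obtain ⟨α, h1, h2, -⟩ := necessary h
      exact ⟨α, h1, h2⟩
    · rintro ⟨α, h1, h2⟩
      exact realised_of_lowerSet e L₂ α h1 h2
  · intro L _ _ _ L₂
    constructor
    · intro h
      obtain ⟨α, h1, h2, -⟩ := necessary h
      exact ⟨α, h1, h2⟩
    · rintro ⟨α, h1, h2⟩
      exact realised_finite_distrib L₂ α h1 h2
  · intro L _ _ h a b c
    exact distrib_of_diag h a b c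

end Pool.Agent.Results.MP_81b71e_al.DistributivePairs
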